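import Pool.Agent.L7h4.FR.Five

set_option autoImplicit false

/-! Project F5, parts ENT and SCL. -/

namespace Pool.Agent.L7h29.F5

open Matrix Finset Pool.Agent.L7h4.F5

/-- columns of `U * cyc` except the last one -/
theorem mul_cyc {n : ℕ} (U : Mat n) (κ : ℂ) (i j : Fin n) (h : (j : ℕ) + 1 < n) :
    (U * cyc n κ) i j = U i ⟨j + 1, h⟩ := by
  rw [Matrix.mul_apply, Finset.sum_eq_single (⟨j + 1, h⟩ : Fin n)]
  · unfold cyc
    simp
  · intro k _ hk
    unfold cyc
    rw [Matrix.of_apply, if_neg, if_neg, mul_zero]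
    · rintro ⟨_, h2⟩
      omega
    · intro h2
      exact hk (Fin.ext h2.symm)
  · intro h2
    exact absurd (Finset.mem_univ _) h2

/-- Hessenberg shape -/
theorem hes_zero {n : ℕ} (U : Mat n) (hU : Upp U) (κ : ℂ) (i j : Fin n) (h : (j : ℕ) + 1 < i) :
    (U * cyc n κ) i j = 0 := by
  have hj : (j : ℕ) + 1 < n := by
    have := i.isLt
    omega
  rw [mul_cyc U κ i j hj]
  exact hU.1 i _ (by rw [Fin.lt_def]; exact h)

/-- support of the first column of the powers -/
theorem pow_zero_col {n : ℕ} (U : Mat n) (hU : Upp U) (κ : ℂ) (o : Fin n) (ho : (o : ℕ) = 0)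
    (k : ℕ) : ∀ i : Fin n, k < i → ((U * cyc n κ) ^ k) i o = 0 := by
  induction k with
  | zero =>
    intro i hi
    rw [pow_zero, Matrix.one_apply_ne]
    intro h
    rw [h, ho] at hi
    exact lt_irrefl _ hi
  | succ k ih =>
    intro i hi
    rw [pow_succ', Matrix.mul_apply]
    apply Finset.sum_eq_zero
    intro j _
    rcases Nat.lt_or_ge k j with h | h
    · rw [ih j h, mul_zero]
    · rw [hes_zero U hU κ i j (by omega), zero_mul]

/-- the first column of the powers below `n - 1` does not depend on `κ` -/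
theorem pow_indep {n : ℕ} (U : Mat n) (hU : Upp U) (κ κ' : ℂ) (o : Fin n) (ho : (o : ℕ) = 0)
    (k : ℕ) (hk : k + 1 < n) : ∀ i : Fin n, ((U * cyc n κ) ^ k) i o = ((U * cyc n κ') ^ k) i o := by
  induction k with
  | zero =>
    intro i
    rw [pow_zero, pow_zero]
  | succ k ih =>
    intro i
    rw [pow_succ', pow_succ', Matrix.mul_apply, Matrix.mul_apply]
    apply Finset.sum_congr rfl
    intro j _
    rcases Nat.lt_or_ge k j with h | h
    · rw [pow_zero_col U hU κ o ho k j h, pow_zero_col U hU κ' o ho k j h, mul_zero, mul_zero]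
    · have hj : (j : ℕ) + 1 < n := by omega
      rw [mul_cyc U κ i j hj, mul_cyc U κ' i j hj, ih (by omega) j]

/-- diagonal entries as a function on `ℕ` -/
noncomputable def dg {n : ℕ} (U : Mat n) (j : ℕ) : ℂ := if h : j < n then U ⟨j, h⟩ ⟨j, h⟩ else 1

theorem pow_diag {n : ℕ} (U : Mat n) (hU : Upp U) (κ : ℂ) (o : Fin n) (ho : (o : ℕ) = 0)
    (k : ℕ) (hk : k < n) :
    ((U * cyc n κ) ^ k) ⟨k, hk⟩ o = ∏ j ∈ range k, dg U (j + 1) := by
  induction k with
  | zero =>
    rw [pow_zero, Finset.range_zero, Finset.prod_empty]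
    have : (⟨0, hk⟩ : Fin n) = o := Fin.ext ho.symm
    rw [this, Matrix.one_apply_eq]
  | succ k ih =>
    rw [pow_succ', Matrix.mul_apply, Finset.sum_eq_single (⟨k, by omega⟩ : Fin n)]
    · rw [ih (by omega), mul_cyc U κ _ _ hk, Finset.prod_range_succ, mul_comm]
      congr 1
      unfold dg
      rw [dif_pos hk]
    · intro j _ hj
      rcases Nat.lt_trichotomy (j : ℕ) k with h | h | h
      · rw [hes_zero U hU κ _ j (by simpa using h), zero_mul]
      · exact absurd (Fin.ext h) hj
      · rw [pow_zero_col U hU κ o ho k j h, mul_zero]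
    · intro h2
      exact absurd (Finset.mem_univ _) h2

theorem det_upp {n : ℕ} (U : Mat n) (hU : Upp U) : U.det = ∏ j ∈ range n, dg U j := by
  rw [Matrix.det_of_isUpperTriangular (fun i j h => hU.1 i j h)]
  rw [← Fin.prod_univ_eq_prod_range]
  apply Finset.prod_congr rfl
  intro i _
  unfold dg
  rw [dif_pos i.isLt]

theorem s_ENT : S_ENT := by
  intro n hn U hU
  refine ⟨?_, ?_⟩
  · intro κ
    rw [pow_diag U hU κ ⟨0, by omega⟩ rfl (n - 2) (by omega), det_upp U hU]
    obtain ⟨m, rfl⟩ : ∃ m, n = m + 2 := ⟨n - 2, by omega⟩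
    have e1 : m + 2 - 2 = m := by omega
    rw [e1, Finset.prod_range_succ, Finset.prod_range_succ']
    have e2 : dg U 0 = U ⟨0, by omega⟩ ⟨0, by omega⟩ := by
      unfold dg; rw [dif_pos (by omega)]
    have e3 : dg U (m + 1) = U (last (m + 2) (by omega)) (last (m + 2) (by omega)) := by
      unfold dg last
      rw [dif_pos (by omega)]
      rfl
    rw [e2, e3]
    ring
  · intro κ κ'
    exact pow_indep U hU κ κ' ⟨0, by omega⟩ rfl (n - 2) (by omega) ⟨0, by omega⟩

end Pool.Agent.L7h29.F5
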