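import Pool.Agent.L7h4.FR.Five

set_option autoImplicit false

/-! Project F5, part POLY. -/

namespace Pool.Agent.L7h29.F5

open Matrix Finset Pool.Agent.L7h4.F5

theorem eval_scale {n k : ℕ} (p : MvPolynomial (Fin n) ℂ) (hp : p.IsHomogeneous k) (c : ℂ)
    (x : Fin n → ℂ) : MvPolynomial.eval (c • x) p = c ^ k * MvPolynomial.eval x p := by
  rw [MvPolynomial.eval_eq', MvPolynomial.eval_eq', Finset.mul_sum]
  apply Finset.sum_congr rfl
  intro d hd
  have h1 : ∑ i, d i = k := by
    have h2 := hp (MvPolynomial.mem_support_iff.mp hd)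
    rw [← h2, Finsupp.weight_apply]
    simp [Finsupp.sum_fintype]
  have h3 : ∏ i, (c • x) i ^ d i = c ^ k * ∏ i, x i ^ d i := by
    rw [← h1, ← Finset.prod_pow_eq_pow_sum, ← Finset.prod_mul_distrib]
    apply Finset.prod_congr rfl
    intro i _
    rw [Pi.smul_apply, smul_eq_mul, mul_pow]
  rw [h3]
  ring

/-- restriction to a line -/
theorem line_poly {n : ℕ} (p : MvPolynomial (Fin n) ℂ) (y v : Fin n → ℂ) :
    ∃ q : Polynomial ℂ, ∀ z : ℂ, q.eval z = MvPolynomial.eval (y + z • v) p := by
  refine ⟨MvPolynomial.aeval (fun m => Polynomial.C (y m) + Polynomial.C (v m) * Polynomial.X) p,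
    fun z => ?_⟩
  induction p using MvPolynomial.induction_on with
  | C a => simp
  | add p q hp hq => rw [map_add, Polynomial.eval_add, hp, hq, map_add]
  | mul_X p i hp =>
    rw [map_mul, Polynomial.eval_mul, hp, map_mul, MvPolynomial.aeval_X, MvPolynomial.eval_X]
    simp only [Polynomial.eval_add, Polynomial.eval_mul, Polynomial.eval_C, Polynomial.eval_X,
      Pi.add_apply, Pi.smul_apply, smul_eq_mul]
    ring

/-- invariance in a direction -/
theorem invariance {n : ℕ} (p : MvPolynomial (Fin n) ℂ) (v w : Fin n → ℂ) (hw : w ≠ 0)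
    (h : ∀ (t : ℕ) (y : Fin n → ℂ),
      MvPolynomial.eval (y + ((t : ℂ) * (y ⬝ᵥ w)) • v) p = MvPolynomial.eval y p)
    (y : Fin n → ℂ) (z : ℂ) : MvPolynomial.eval (y + z • v) p = MvPolynomial.eval y p := by
  -- first for `y · w ≠ 0`
  have h1 : ∀ y : Fin n → ℂ, y ⬝ᵥ w ≠ 0 → ∀ z : ℂ,
      MvPolynomial.eval (y + z • v) p = MvPolynomial.eval y p := by
    intro y hy z
    obtain ⟨q, hq⟩ := line_poly p y v
    have h2 : q = Polynomial.C (MvPolynomial.eval y p) := by
      apply Polynomial.eq_of_infinite_eval_eq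
      apply (Set.infinite_range_of_injective (f := fun t : ℕ => (t : ℂ) * (y ⬝ᵥ w)) ?_).mono
      · rintro _ ⟨t, rfl⟩
        simp only [Set.mem_ofPred_eq, Polynomial.eval_C]
        rw [hq]
        exact h t y
      · intro a b hab
        have := mul_right_cancel₀ hy hab
        exact_mod_cast this
    rw [← hq z, h2, Polynomial.eval_C]
  -- a vector with `u · w ≠ 0`
  obtain ⟨m, hm⟩ := Function.ne_iff.mp hw
  have hm' : w m ≠ 0 := hm
  by_cases hy : y ⬝ᵥ w = 0
  · let u : Fin n → ℂ := Pi.single m 1
    have hu : u ⬝ᵥ w = w m := by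
      simp only [u]
      rw [single_dotProduct, one_mul]
    have hc1 : Continuous fun ε : ℂ => MvPolynomial.eval ((y + ε • u) + z • v) p := by
      apply (MvPolynomial.continuous_eval p).comp
      fun_prop
    have hc2 : Continuous fun ε : ℂ => MvPolynomial.eval (y + ε • u) p := by
      apply (MvPolynomial.continuous_eval p).comp
      fun_prop
    have heq : (fun ε : ℂ => MvPolynomial.eval ((y + ε • u) + z • v) p) =
        fun ε : ℂ => MvPolynomial.eval (y + ε • u) p := by
      apply Continuous.ext_on (dense_compl_singleton (0 : ℂ)) hc1 hc2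
      intro ε hε
      have hε' : ε ≠ 0 := hε
      apply h1
      rw [add_dotProduct, smul_dotProduct, hy, hu, zero_add, smul_eq_mul]
      exact mul_ne_zero hε' hm'
    have h3 := congrFun heq 0
    simpa using h3
  · exact h1 y hy z

theorem s_POLY : S_POLY := by
  classical
  intro n k Γ w hk hhom hw hrel
  -- invariance of the components
  have hinv : ∀ i j : Fin n, i ≠ j → ∀ (y : Fin n → ℂ) (x : ℂ),
      MvPolynomial.eval (Function.update y j x) (Γ i) = MvPolynomial.eval y (Γ i) := by
    intro i j hij y x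
    have h1 : Function.update y j x = y + (x - y j) • (Pi.single j 1 : Fin n → ℂ) := by
      funext m
      by_cases hm : m = j
      · rw [hm]; simp
      · simp [hm]
    rw [h1]
    apply invariance (Γ i) (Pi.single j 1) (w j) (hw j).1
    intro t y
    rw [hrel i j t y, Pi.single_eq_of_ne hij, mul_zero, add_zero]
  have hred : ∀ (i : Fin n) (y : Fin n → ℂ),
      MvPolynomial.eval y (Γ i) = (y i) ^ k * MvPolynomial.eval (Pi.single i 1) (Γ i) := by
    intro i y
    have key : ∀ T : Finset (Fin n), i ∉ T →
        MvPolynomial.eval (fun m => if m ∈ T then 0 else y m) (Γ i) = MvPolynomial.eval y (Γ i) := by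
      intro T
      induction T using Finset.induction_on with
      | empty => intro _; simp
      | insert j T hj ih =>
        intro hi
        rw [Finset.mem_insert, not_or] at hi
        have h1 : (fun m => if m ∈ insert j T then (0 : ℂ) else y m) =
            Function.update (fun m => if m ∈ T then 0 else y m) j 0 := by
          funext m
          by_cases hm : m = j
          · rw [hm]; simp
          · simp [hm]
        rw [h1, hinv i j hi.1, ih hi.2]
    rw [← key (Finset.univ.erase i) (Finset.notMem_erase _ _)]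
    have h2 : (fun m => if m ∈ Finset.univ.erase i then (0 : ℂ) else y m) =
        (y i) • (Pi.single i 1 : Fin n → ℂ) := by
      funext m
      by_cases hm : m = i
      · rw [hm]; simp
      · simp [hm]
    rw [h2, eval_scale (Γ i) (hhom i)]
  -- the constants vanish
  intro j
  apply MvPolynomial.funext
  intro y
  rw [map_zero, hred j y]
  obtain ⟨m, hm⟩ := Function.ne_iff.mp (hw j).1
  have hm' : w j m ≠ 0 := hm
  have hmj : m ≠ j := by
    rintro rfl
    exact hm' (hw m).2
  set c := MvPolynomial.eval (Pi.single j 1 : Fin n → ℂ) (Γ j) with hc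
  let u : Fin n → ℂ := Pi.single m 1
  have huj : u j = 0 := by
    simp only [u]
    exact Pi.single_eq_of_ne (Ne.symm hmj) _
  have hus : u ⬝ᵥ w j = w j m := by
    simp only [u]
    rw [single_dotProduct, one_mul]
  have h1 : ∀ t : ℕ, ((t : ℂ) * w j m) ^ k * c =
      (t : ℂ) * (∑ m, MvPolynomial.eval u (Γ m) * w j m) := by
    intro t
    have h2 := hrel j j t u
    rw [hred j, hred j u, hus, Pi.add_apply, Pi.smul_apply, Pi.single_eq_same, huj, smul_eq_mul,
      mul_one, zero_add, zero_pow (by omega), zero_mul, zero_add, mul_one] at h2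
    exact h2
  have h2 := h1 1
  have h3 := h1 2
  rw [Nat.cast_one, one_mul, one_mul] at h2
  rw [← h2, mul_pow] at h3
  have h4 : ((2 : ℂ) ^ k - 2) * ((w j m) ^ k * c) = 0 := by
    have h5 : ((2 : ℕ) : ℂ) = 2 := by norm_num
    rw [h5] at h3
    linear_combination h3
  have h6 : (2 : ℂ) ^ k - 2 ≠ 0 := by
    intro h
    have h7 : (2 : ℂ) ^ k = 2 ^ 1 := by rw [pow_one]; exact sub_eq_zero.mp h
    have h8 : (2 : ℕ) ^ k = 2 ^ 1 := by exact_mod_cast h7
    have h9 := Nat.pow_right_injective (le_refl 2) h8
    omega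
  have h7 : c = 0 := by
    rcases mul_eq_zero.mp h4 with h | h
    · exact absurd h h6
    · exact (mul_eq_zero.mp h).resolve_left (pow_ne_zero _ hm')
  rw [h7, mul_zero]

end Pool.Agent.L7h29.F5
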