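import Pool.Agent.L7h29.F5.Ent

set_option autoImplicit false

/-! Project F5, part SCL. -/

namespace Pool.Agent.L7h29.F5

open Matrix Finset Pool.Agent.L7h4.F5

/-- the scaled matrix -/
noncomputable def Vt {n : ℕ} (U : Mat n) (τ : ℂ) : Mat n :=
  Matrix.of fun i j => if i ≤ j then U i j * τ ^ (((j : ℕ) - 1) - ((i : ℕ) - 1)) else 0

theorem Vt_diag {n : ℕ} (U : Mat n) (τ : ℂ) (i : Fin n) : Vt U τ i i = U i i := by
  unfold Vt
  rw [Matrix.of_apply, if_pos le_rfl, Nat.sub_self, pow_zero, mul_one]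

theorem Vt_upp {n : ℕ} (U : Mat n) (hU : Upp U) (τ : ℂ) : Upp (Vt U τ) := by
  refine ⟨?_, ?_⟩
  · intro i j hij
    unfold Vt
    rw [Matrix.of_apply, if_neg (not_le.mpr hij)]
  · intro i
    rw [Vt_diag]
    exact hU.2 i

theorem Vt_pow {n : ℕ} (hn : 3 ≤ n) (U : Mat n) (hU : Upp U) (k : ℕ) (hk : k + 1 < n) :
    ((Vt U 0 * cyc n 1) ^ k) ⟨0, by omega⟩ ⟨0, by omega⟩ =
      (U ⟨0, by omega⟩ ⟨1, by omega⟩) ^ k := by
  induction k with
  | zero => rw [pow_zero, pow_zero, Matrix.one_apply_eq]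
  | succ k ih =>
    rw [pow_succ', Matrix.mul_apply, Finset.sum_eq_single (⟨0, by omega⟩ : Fin n)]
    · rw [ih (by omega), pow_succ']
      congr 1
      rw [mul_cyc _ _ _ _ (by simp; omega)]
      unfold Vt
      simp
    · intro j _ hj
      have hj0 : (j : ℕ) ≠ 0 := fun h => hj (Fin.ext h)
      rcases Nat.lt_or_ge k j with h | h
      · rw [pow_zero_col (Vt U 0) (Vt_upp U hU 0) 1 ⟨0, by omega⟩ rfl k j h, mul_zero]
      · rw [mul_cyc _ _ _ _ (by omega)]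
        unfold Vt
        rw [Matrix.of_apply]
        have e1 : ((⟨(j : ℕ) + 1, by omega⟩ : Fin n) : ℕ) - 1 - (((⟨0, by omega⟩ : Fin n) : ℕ) - 1) ≠ 0 := by
          simp only
          omega
        rw [zero_pow e1, mul_zero]
        simp
    · intro h2
      exact absurd (Finset.mem_univ _) h2

theorem Vt_cont {n : ℕ} (U : Mat n) : Continuous fun τ : ℂ => Vt U τ := by
  apply continuous_matrix
  intro i j
  unfold Vt
  simp only [Matrix.of_apply]
  split_ifs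
  · fun_prop
  · fun_prop

theorem s_SCL : S_SCL := by
  intro n hn U l hU hl hd h01
  have hcont : Continuous fun τ : ℂ =>
      ((Vt U τ * cyc n 1) ^ (n - 2)) ⟨0, by omega⟩ ⟨0, by omega⟩ := by
    have h1 : Continuous fun τ : ℂ => (Vt U τ * cyc n 1) ^ (n - 2) :=
      ((Vt_cont U).mul continuous_const).pow _
    exact h1.matrix_elem _ _
  have h0 : ((Vt U 0 * cyc n 1) ^ (n - 2)) ⟨0, by omega⟩ ⟨0, by omega⟩ ≠ 0 := by
    rw [Vt_pow hn U hU (n - 2) (by omega)]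
    exact pow_ne_zero _ h01
  have hev : ∀ᶠ τ : ℂ in nhds 0,
      ((Vt U τ * cyc n 1) ^ (n - 2)) ⟨0, by omega⟩ ⟨0, by omega⟩ ≠ 0 :=
    hcont.continuousAt.eventually_ne h0
  obtain ⟨τ, hτ, hτ0⟩ := ((hev.filter_mono (nhdsWithin_le_nhds (s := {0}ᶜ))).and
    self_mem_nhdsWithin).exists
  have hτ0' : τ ≠ 0 := hτ0
  refine ⟨Matrix.diagonal (fun j : Fin n => τ ^ ((j : ℕ) - 1)),
    Matrix.diagonal (fun j : Fin n => (τ ^ ((j : ℕ) - 1))⁻¹), Vt U τ, ?_, ?_, ?_, Vt_upp U hU τ,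
    ?_, hτ⟩
  · rw [Matrix.diagonal_mul_diagonal, ← Matrix.diagonal_one]
    congr 1
    funext j
    exact mul_inv_cancel₀ (pow_ne_zero _ hτ0')
  · rw [Matrix.diagonal_mul_diagonal, ← Matrix.diagonal_one]
    congr 1
    funext j
    exact inv_mul_cancel₀ (pow_ne_zero _ hτ0')
  · ext i j
    rw [Matrix.mul_diagonal, Matrix.diagonal_mul]
    unfold Vt
    rw [Matrix.of_apply]
    split_ifs with h
    · have h' : (i : ℕ) ≤ j := h
      rw [pow_sub₀ τ hτ0' (show (i : ℕ) - 1 ≤ (j : ℕ) - 1 by omega)]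
      ring
    · rw [hU.1 i j (not_le.mp h)]
      ring
  · intro i
    rw [Vt_diag]
    exact hd i

end Pool.Agent.L7h29.F5
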